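import Pool.Agent.H12.KTH.Stmts
import Pool.Agent.H32.Dense.Pair

/-!
# `t₁` and the time of `O` are uniform given the lines 0, 1 and the times `t`, `r`
-/

set_option autoImplicit false

namespace Pool.Agent.H36.KTH.UFT

open Finset Real
open Pool.Agent.H49.Ent Pool.Agent.H32.Dense
open Pool.KTH

/-- Two times `s`, `s'` with the same time of `O` are close. -/
lemma count {M t r t₁ s s' T : ℤ} (hM : 0 < M) (hMt : 0 ≤ t ∧ t < M)
    (hMt₁ : 0 ≤ t₁ ∧ t₁ < M) (hMs : 0 ≤ s ∧ s < M) (hMs' : 0 ≤ s' ∧ s' < M)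
    (hT : hat t s t₁ = T) (hT' : hat t s' t₁ = T)
    (h : s + ct t s t₁ r = s' + ct t s' t₁ r) :
    |((s - s' : ℤ) : ℝ)| ≤ 9 * ((M : ℝ) / max 1 |(r : ℝ) - t₁|) := by
  obtain ⟨h1, h2, h3, h4⟩ := hat_spec t s t₁
  rw [hT] at h1 h2 h3 h4
  have hM1 : (1 : ℝ) ≤ M := by exact_mod_cast hM
  have hTt : (T : ℝ) - t ≠ 0 := sub_ne_zero.mpr (by exact_mod_cast h1)
  have hmax : (0 : ℝ) < max 1 |(r : ℝ) - t₁| := lt_of_lt_of_le one_pos (le_max_left _ _)
  have r1 : (0 : ℝ) ≤ t := by exact_mod_cast hMt.1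
  have r2 : (t : ℝ) < M := by exact_mod_cast hMt.2
  have r3 : (0 : ℝ) ≤ t₁ := by exact_mod_cast hMt₁.1
  have r4 : (t₁ : ℝ) < M := by exact_mod_cast hMt₁.2
  have r5 : (t₁ : ℝ) ≤ T := by exact_mod_cast h3
  have r6 : (T : ℝ) ≤ t₁ + 2 := by exact_mod_cast h4
  have r7 : (0 : ℝ) ≤ s := by exact_mod_cast hMs.1
  have r8 : (s : ℝ) < M := by exact_mod_cast hMs.2
  have r9 : (0 : ℝ) ≤ s' := by exact_mod_cast hMs'.1
  have r10 : (s' : ℝ) < M := by exact_mod_cast hMs'.2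
  have hTt3 : |(T : ℝ) - t| ≤ 3 * M := abs_le.mpr ⟨by linarith, by linarith⟩
  push_cast
  rcases eq_or_ne T r with hr | hr
  · have e1 : |(r : ℝ) - t₁| ≤ 2 := by
      rw [← hr]
      exact abs_le.mpr ⟨by linarith, by linarith⟩
    have e2 : max 1 |(r : ℝ) - t₁| ≤ 2 := max_le (by norm_num) e1
    have e3 : |(s : ℝ) - s'| ≤ M := abs_le.mpr ⟨by linarith, by linarith⟩
    have e4 : (M : ℝ) / 2 ≤ M / max 1 |(r : ℝ) - t₁| := by gcongr
    linarith
  · have hTr : (1 : ℝ) ≤ |(T : ℝ) - r| := by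
      have : (1 : ℤ) ≤ |T - r| := Int.one_le_abs (sub_ne_zero.mpr hr)
      exact_mod_cast this
    -- the two floors
    have hf : ⌊(s : ℝ) + kap t s t₁ * ((r : ℝ) - t)⌋ = ⌊(s' : ℝ) + kap t s' t₁ * ((r : ℝ) - t)⌋ := by
      rw [Int.floor_intCast_add, Int.floor_intCast_add]
      exact h
    have hlt := Int.abs_sub_lt_one_of_floor_eq_floor hf
    have hk : kap t s t₁ = ((T : ℝ) - s) / ((T : ℝ) - t) := by unfold kap; rw [hT]
    have hk' : kap t s' t₁ = ((T : ℝ) - s') / ((T : ℝ) - t) := by unfold kap; rw [hT']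
    have e1 : (s : ℝ) + kap t s t₁ * ((r : ℝ) - t) - ((s' : ℝ) + kap t s' t₁ * ((r : ℝ) - t)) =
        ((s : ℝ) - s') * ((T : ℝ) - r) / ((T : ℝ) - t) := by
      rw [hk, hk']
      field_simp
      ring
    rw [e1, abs_div, abs_mul, div_lt_one (abs_pos.mpr hTt)] at hlt
    have e2 : max 1 |(r : ℝ) - t₁| ≤ 3 * |(T : ℝ) - r| := by
      refine max_le (by linarith) ?_
      calc |(r : ℝ) - t₁| = |((r : ℝ) - T) + ((T : ℝ) - t₁)| := by congr 1; ring
        _ ≤ |(r : ℝ) - T| + |(T : ℝ) - t₁| := abs_add_le _ _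
        _ ≤ |(T : ℝ) - r| + 2 := by
          rw [abs_sub_comm (r : ℝ) T]
          have : |(T : ℝ) - t₁| ≤ 2 := abs_le.mpr ⟨by linarith, by linarith⟩
          linarith
        _ ≤ 3 * |(T : ℝ) - r| := by linarith
    have e3 : |(s : ℝ) - s'| * max 1 |(r : ℝ) - t₁| ≤ 9 * M := by
      calc |(s : ℝ) - s'| * max 1 |(r : ℝ) - t₁| ≤ |(s : ℝ) - s'| * (3 * |(T : ℝ) - r|) := by
            gcongr
        _ = 3 * (|(s : ℝ) - s'| * |(T : ℝ) - r|) := by ring
        _ ≤ 3 * (3 * M) := by linarith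
        _ = 9 * M := by ring
    rw [← mul_div_assoc, le_div_iff₀ hmax]
    exact e3

lemma log_count {y : ℝ} (hy : 0 ≤ y) : Real.log (2 * (9 * y) + 1) ≤ 3 + Real.log (1 + y) := by
  calc Real.log (2 * (9 * y) + 1) ≤ Real.log (18 * (1 + y)) := by
        apply Real.log_le_log (by positivity)
        linarith
    _ = Real.log 18 + Real.log (1 + y) := Real.log_mul (by norm_num) (by positivity)
    _ ≤ _ := by
        have : Real.log 18 ≤ (3 : ℕ) := log_le_of_pow (by norm_num) (by norm_num)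
        push_cast at this
        linarith

variable {d J : ℕ}

lemma gp_nonneg (x y : ℤ) : 0 ≤ gp J x y := by
  unfold gp
  apply Real.log_nonneg
  have : (0 : ℝ) ≤ 2 ^ J / max 1 |(x : ℝ) - y| := by positivity
  linarith

lemma eg_nonneg (F : Cf d J) (x y : F.Ω → ℤ) : 0 ≤ F.eg x y :=
  Ex_nonneg F.hq fun _ _ => gp_nonneg _ _

lemma time_le (F : Cf d J) {T : Type} {τ : F.Ω → ℤ}
    (hτ : ∀ w, 0 < F.q w → 0 ≤ τ w ∧ τ w < ((2 ^ J : ℕ) : ℤ)) (W : F.Ω → T) :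
    CH F.q τ W ≤ lm J := by
  have h := CH_time_le F.hq F.h1 hτ W
  refine h.trans (le_of_eq ?_)
  unfold lm
  push_cast
  rw [Real.log_pow]

/-- The time `s` is uniform given the lines 0, 1 and the times `t`, `t₁`, `r`. -/
lemma s_unif (F : Cf d J) {L sb e : ℝ} (h : F.Ok L sb e) :
    lm J - 2 * e ≤
      CH F.q F.s (fun w => ((F.t₁ w, F.r w), ((F.v₀ w, F.v₁ w), F.t w, F.Z w))) := by
  have hq := F.hq
  have a1 := CH_chain hq (fun w => (F.t₁ w, F.r w)) (fun w => (F.tr w, F.ta w))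
    (fun w => ((F.v₀ w, F.v₁ w, F.v₂ w), (F.t w, F.s w), F.Z w))
  have a2 := CH_subadd hq F.tr F.ta
    (fun w => ((F.v₀ w, F.v₁ w, F.v₂ w), (F.t w, F.s w), F.Z w))
  have a2a := time_le F F.htr (fun w => ((F.v₀ w, F.v₁ w, F.v₂ w), (F.t w, F.s w), F.Z w))
  have a2b := time_le F F.hta (fun w => ((F.v₀ w, F.v₁ w, F.v₂ w), (F.t w, F.s w), F.Z w))
  have a3 : CH F.q (fun w => (F.t₁ w, F.r w)) (fun w => ((F.tr w, F.ta w),
      ((F.v₀ w, F.v₁ w, F.v₂ w), (F.t w, F.s w), F.Z w))) ≤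
      CH F.q (fun w => (F.t₁ w, F.r w)) (fun w => (F.s w, ((F.v₀ w, F.v₁ w), F.t w, F.Z w))) := by
    refine CH_mono_cond hq ?_
    intro w w' _ _ e
    simp only [Prod.mk.injEq] at e ⊢
    tauto
  have a4 := CH_chain hq (fun w => (F.t₁ w, F.r w)) F.s
    (fun w => ((F.v₀ w, F.v₁ w), F.t w, F.Z w))
  have a5 := CH_chain hq F.s (fun w => (F.t₁ w, F.r w))
    (fun w => ((F.v₀ w, F.v₁ w), F.t w, F.Z w))
  have a6 : CH F.q (fun w => ((F.t₁ w, F.r w), F.s w))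
      (fun w => ((F.v₀ w, F.v₁ w), F.t w, F.Z w)) =
      CH F.q (fun w => (F.s w, (F.t₁ w, F.r w)))
      (fun w => ((F.v₀ w, F.v₁ w), F.t w, F.Z w)) := by
    refine CH_congr hq ?_ ?_ ?_ ?_ <;>
    · intro w w' _ _ e
      try simp only [Prod.mk.injEq] at e ⊢
      tauto
  have a7 := CH_subadd hq F.t₁ F.r (fun w => ((F.v₀ w, F.v₁ w), F.t w, F.Z w))
  have a7a := time_le F F.ht₁ (fun w => ((F.v₀ w, F.v₁ w), F.t w, F.Z w))
  have a7b := time_le F F.hr (fun w => ((F.v₀ w, F.v₁ w), F.t w, F.Z w))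
  have c1 := h.cs
  have c2 := h.ct
  linarith

theorem uft_of (hT : TMSStmt) : UFTStmt := by
  intro d
  obtain ⟨hT1, C, hC0, hC⟩ := hT d
  refine ⟨C + 9, by linarith, ?_⟩
  intro J F L sb e h
  have hq := F.hq
  have he := h.e0
  have hlog : 0 ≤ Real.log ((J : ℝ) + 2) := Real.log_nonneg (by
    have : (0 : ℝ) ≤ J := Nat.cast_nonneg J
    linarith)
  have her : e + 1 ≤ er J e := by unfold er; linarith
  have t1 := (hT1 J F L sb e h).1
  -- the mean closeness of `r` and `t₁`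
  have t2 : F.eg F.r F.t₁ ≤ C * er J e := by
    have := hC J F L sb e h
    have g1 := eg_nonneg F F.t F.s
    have g2 := eg_nonneg F F.t₁ F.t
    have g3 := eg_nonneg F F.t₁ F.s
    have g4 := eg_nonneg F F.r F.t
    have g5 := eg_nonneg F F.r F.s
    have g6 := eg_nonneg F F.tr F.s
    have g7 := eg_nonneg F F.ta F.s
    have g8 := eg_nonneg F F.ta F.tr
    have g9 := eg_nonneg F F.ta F.TO
    linarith
  -- chain rule
  have b1 := CH_chain hq F.TO F.t₁ (fun w => (F.v01 w, (F.t w, F.r w), F.Z w))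
  have b1' : CH F.q (fun w => (F.t₁ w, F.TO w)) (fun w => (F.v01 w, (F.t w, F.r w), F.Z w)) =
      CH F.q (fun w => (F.TO w, F.t₁ w)) (fun w => (F.v01 w, (F.t w, F.r w), F.Z w)) := by
    refine CH_congr hq ?_ ?_ ?_ ?_ <;>
    · intro w w' _ _ e
      try simp only [Prod.mk.injEq] at e ⊢
      tauto
  have b2 : CH F.q F.t₁
      (fun w => (F.v3 w, (F.t w, F.s w), (F.r w, F.tr w, F.ta w), F.Z w)) ≤
      CH F.q F.t₁ (fun w => (F.v01 w, (F.t w, F.r w), F.Z w)) := by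
    refine CH_mono_cond hq ?_
    intro w w' _ _ e
    simp only [Prod.mk.injEq, Cf.v3, Cf.v01] at e ⊢
    tauto
  have b3 : CH F.q F.TO (fun w => (hat (F.t w) (F.s w) (F.t₁ w) - F.t₁ w,
      (F.t₁ w, (F.v01 w, (F.t w, F.r w), F.Z w)))) ≤
      CH F.q F.TO (fun w => (F.t₁ w, (F.v01 w, (F.t w, F.r w), F.Z w))) := by
    refine CH_mono_cond hq ?_
    intro w w' _ _ e
    exact (Prod.ext_iff.mp e).2
  have b4 := CH_le_add hq F.s F.TO (fun w => (hat (F.t w) (F.s w) (F.t₁ w) - F.t₁ w,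
      (F.t₁ w, (F.v01 w, (F.t w, F.r w), F.Z w))))
  have b5 := CH_le_add hq F.s (fun w => hat (F.t w) (F.s w) (F.t₁ w) - F.t₁ w)
    (fun w => (F.t₁ w, (F.v01 w, (F.t w, F.r w), F.Z w)))
  have b6 : CH F.q (fun w => hat (F.t w) (F.s w) (F.t₁ w) - F.t₁ w)
      (fun w => (F.t₁ w, (F.v01 w, (F.t w, F.r w), F.Z w))) ≤ 2 := by
    refine (CH_time_le (M := 3) hq F.h1 (fun w _ => ?_) _).trans ?_
    · obtain ⟨_, _, h3, h4⟩ := hat_spec (F.t w) (F.s w) (F.t₁ w)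
      push_cast
      constructor <;> omega
    · have : Real.log ((3 : ℕ) : ℝ) ≤ (2 : ℕ) := log_le_of_pow (by norm_num) (by norm_num)
      push_cast at this ⊢
      exact this
  have b7 : CH F.q F.s (fun w => ((F.t₁ w, F.r w), ((F.v₀ w, F.v₁ w), F.t w, F.Z w))) ≤
      CH F.q F.s (fun w => (F.t₁ w, (F.v01 w, (F.t w, F.r w), F.Z w))) := by
    refine CH_mono_cond hq ?_
    intro w w' _ _ e
    simp only [Prod.mk.injEq, Cf.v01] at e ⊢
    tauto
  have b7' := s_unif F h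
  have b8 : CH F.q F.s (fun w => (F.TO w, (hat (F.t w) (F.s w) (F.t₁ w) - F.t₁ w,
      (F.t₁ w, (F.v01 w, (F.t w, F.r w), F.Z w))))) ≤ 3 + F.eg F.r F.t₁ := by
    refine (CH_le_int hq F.h1 F.s _ (fun w => 9 * ((2 : ℝ) ^ J / max 1 |(F.r w : ℝ) - F.t₁ w|))
      (fun w w' a b e => ?_)).trans ?_
    · simp only [Prod.mk.injEq] at e
      obtain ⟨e1, e2, e3, e4, e5, e6⟩ := e
      have e7 : F.t w = F.t w' := e5.1
      have e8 : F.r w = F.r w' := e5.2
      have k1 : hat (F.t w) (F.s w') (F.t₁ w) = hat (F.t w) (F.s w) (F.t₁ w) := by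
        rw [← e7, ← e3] at e2
        omega
      have k2 : F.s w + ct (F.t w) (F.s w) (F.t₁ w) (F.r w) =
          F.s w' + ct (F.t w) (F.s w') (F.t₁ w) (F.r w) := by
        unfold Cf.TO Cf.c cP at e1
        rw [← e7, ← e3, ← e8] at e1
        exact e1
      have hM : (0 : ℤ) < ((2 ^ J : ℕ) : ℤ) := by positivity
      have := count hM (F.ht w a) (F.ht₁ w a) (F.hs w a) (F.hs w' b) rfl k1 k2
      push_cast at this ⊢
      exact this
    · calc Ex F.q (fun w => Real.log (2 * (9 * ((2 : ℝ) ^ J / max 1 |(F.r w : ℝ) - F.t₁ w|)) + 1))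
          ≤ Ex F.q (fun w => 3 + gp J (F.r w) (F.t₁ w)) :=
            Ex_mono hq fun w _ => log_count (by positivity)
        _ = 3 + F.eg F.r F.t₁ := by
            rw [Ex_add, Ex_const F.h1]
            rfl
  nlinarith [b1, b1', b2, b3, b4, b5, b6, b7, b7', b8, t1, t2, her, hC0]

end Pool.Agent.H36.KTH.UFT
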