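import Pool.Agent.H71.KTH.PAR

/-!
# KTH, row PAL: lower bounds for the entropy of `O`, `Y` given the two directions
-/

set_option autoImplicit false

namespace Pool.Agent.H36.KTH.PAL

open Finset Real
open Pool.Agent.H49.Ent Pool.Agent.H32.Dense
open Pool.KTH Pool.KTH.H71P
open Pool.Agent.H24.KTH (dsv lvv lev cap Yf kp LevOne LevPlus LevZero)

lemma dsv_le_max {d : ℕ} (x y : Fin d → ℤ) (k₀ : Fin d)
    (h : ∀ k, |(y k : ℝ) - x k| ≤ |(y k₀ : ℝ) - x k₀|) : dsv x y ≤ |(y k₀ : ℝ) - x k₀| := by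
  unfold dsv
  rw [pi_norm_le_iff_of_nonneg (abs_nonneg _)]
  intro k
  rw [Real.norm_eq_abs]
  push_cast
  rw [abs_sub_comm]
  exact h k

/-- An integer difference which is not zero is at least one. -/
lemma one_le {a b : ℤ} (h : (a : ℝ) - b ≠ 0) : (1 : ℝ) ≤ |(a : ℝ) - b| := by
  have h1 : a - b ≠ 0 := by
    intro h0
    apply h
    exact_mod_cast h0
  have : (1 : ℤ) ≤ |a - b| := Int.one_le_abs h1
  exact_mod_cast this

theorem gen {C₁ : ℝ}
    (hC : ∀ (Ω δ : Type) [Fintype Ω] (q : Ω → ℝ) (W : Ω → δ) (X : Ω → ℤ)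
      (x K : Ω → ℝ), (∀ w, 0 ≤ q w) → ∑ w, q w = 1 → Det q W x → Det q W K →
      (∀ w, 0 < q w → 1 ≤ K w) →
      CH q X W ≤ Ex q (fun w => Real.log (K w)) +
        2 * Ex q (fun w => Real.log (1 + |(X w : ℝ) - x w| / K w)) + C₁)
    {d J : ℕ} (hd : 1 ≤ d) {Ω δ : Type} [Fintype Ω] {q : Ω → ℝ} (hq : ∀ w, 0 ≤ q w)
    (h1 : ∑ w, q w = 1) (W : Ω → δ) (va vb : Ω → Fin d → ℤ) (ua : Ω → Fin d → ℝ)
    (s c : Ω → ℤ) (hWa : Det q W va) (hWb : Det q W vb) (hWu : Det q W ua)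
    (hva : ∀ w, 0 < q w → ∀ k, |va w k| ≤ ((2 ^ J : ℕ) : ℤ))
    (hvb : ∀ w, 0 < q w → ∀ k, |vb w k| ≤ ((2 ^ J : ℕ) : ℤ)) :
    CH q c (fun w => ((s w + c w, xf (2 ^ J) (ua w) (va w) (s w) (c w) (vb w)), W w)) ≤
      Ex q (fun w => lvv (2 ^ J) (va w) (vb w)) +
        2 * Ex q (fun w => Real.log (1 + |(c w : ℝ)| / 2 ^ J)) + (C₁ + 3) := by
  classical
  have hM : ((2 ^ J : ℕ) : ℝ) = 2 ^ J := by push_cast; rfl
  have hM0 : (0 : ℝ) < 2 ^ J := by positivity
  choose kk hkk using fun x y : Fin d → ℤ => exists_max hd x y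
  let T : Ω → ℤ := fun w => s w + c w
  let X : Ω → Fin d → ℤ := fun w => xf (2 ^ J) (ua w) (va w) (s w) (c w) (vb w)
  let K : Ω → ℝ := fun w => 2 * (2 ^ J / max (dsv (va w) (vb w)) 1)
  let x : Ω → ℝ := fun w => ((X w (kk (va w) (vb w)) : ℝ) -
    pos (2 ^ J) (ua w) (va w) (T w) (kk (va w) (vb w))) * 2 ^ J /
      ((vb w (kk (va w) (vb w)) : ℝ) - va w (kk (va w) (vb w)))
  have hdet : ∀ w w', 0 < q w → 0 < q w' → ((T w, X w), W w) = ((T w', X w'), W w') →
      va w = va w' ∧ vb w = vb w' ∧ ua w = ua w' ∧ T w = T w' ∧ X w = X w' := by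
    intro w w' a b e
    simp only [Prod.mk.injEq] at e
    exact ⟨hWa w w' a b e.2, hWb w w' a b e.2, hWu w w' a b e.2, e.1.1, e.1.2⟩
  have hds : ∀ w, 0 < q w → dsv (va w) (vb w) ≤ 2 * 2 ^ J := by
    intro w hw
    refine (dsv_le_max _ _ (kk (va w) (vb w)) (hkk (va w) (vb w))).trans ?_
    have e1 : |(va w (kk (va w) (vb w)) : ℝ)| ≤ 2 ^ J := by
      have := hva w hw (kk (va w) (vb w))
      have h2 : ((|va w (kk (va w) (vb w))| : ℤ) : ℝ) ≤ (((2 ^ J : ℕ) : ℤ) : ℝ) := by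
        exact_mod_cast this
      push_cast at h2
      exact h2
    have e2 : |(vb w (kk (va w) (vb w)) : ℝ)| ≤ 2 ^ J := by
      have := hvb w hw (kk (va w) (vb w))
      have h2 : ((|vb w (kk (va w) (vb w))| : ℤ) : ℝ) ≤ (((2 ^ J : ℕ) : ℤ) : ℝ) := by
        exact_mod_cast this
      push_cast at h2
      exact h2
    calc |(vb w (kk (va w) (vb w)) : ℝ) - va w (kk (va w) (vb w))| ≤
        |(vb w (kk (va w) (vb w)) : ℝ)| + |(va w (kk (va w) (vb w)) : ℝ)| := abs_sub _ _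
      _ ≤ 2 * 2 ^ J := by linarith
  have hmax : ∀ w, (0 : ℝ) < max (dsv (va w) (vb w)) 1 := fun w =>
    lt_of_lt_of_le one_pos (le_max_right _ _)
  have hJ1 : (1 : ℝ) ≤ 2 ^ J := one_le_pow₀ (by norm_num)
  have hK1 : ∀ w, 0 < q w → 1 ≤ K w := by
    intro w hw
    show (1 : ℝ) ≤ 2 * (2 ^ J / max (dsv (va w) (vb w)) 1)
    rw [← mul_div_assoc, one_le_div (hmax w)]
    exact max_le (hds w hw) (by linarith)
  have c5 := hC Ω ((ℤ × (Fin d → ℤ)) × δ) q (fun w => ((T w, X w), W w)) c x K hq h1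
    (fun w w' a b e => by
      obtain ⟨e1, e2, e3, e4, e5⟩ := hdet w w' a b e
      simp only [x, e1, e2, e3, e4, e5])
    (fun w w' a b e => by
      obtain ⟨e1, e2, _, _, _⟩ := hdet w w' a b e
      simp only [K, e1, e2])
    hK1
  have c6 : Ex q (fun w => Real.log (K w)) ≤ 1 + Ex q (fun w => lvv (2 ^ J) (va w) (vb w)) := by
    have e1 : Ex q (fun w => 1 + lvv (2 ^ J) (va w) (vb w)) =
        1 + Ex q (fun w => lvv (2 ^ J) (va w) (vb w)) := by
      rw [Ex_add, Ex_const h1]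
    rw [← e1]
    refine Ex_mono hq fun w _ => ?_
    show Real.log (2 * (2 ^ J / max (dsv (va w) (vb w)) 1)) ≤ 1 + lvv (2 ^ J) (va w) (vb w)
    have h3 := hmax w
    unfold lvv
    rw [hM, Real.log_mul (by norm_num) (by positivity)]
    have := log_two_le_one
    linarith
  have c7 : Ex q (fun w => Real.log (1 + |(c w : ℝ) - x w| / K w)) ≤
      1 + Ex q (fun w => Real.log (1 + |(c w : ℝ)| / 2 ^ J)) := by
    have e1 : Ex q (fun w => 1 + Real.log (1 + |(c w : ℝ)| / 2 ^ J)) =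
        1 + Ex q (fun w => Real.log (1 + |(c w : ℝ)| / 2 ^ J)) := by
      rw [Ex_add, Ex_const h1]
    rw [← e1]
    refine Ex_mono hq fun w hw => ?_
    have hK := hK1 w hw
    have hK0 : (0 : ℝ) < K w := by linarith
    have hc0 : (0 : ℝ) ≤ |(c w : ℝ)| / 2 ^ J := by positivity
    have hlc : 0 ≤ Real.log (1 + |(c w : ℝ)| / 2 ^ J) := Real.log_nonneg (by linarith)
    by_cases hΔ : (vb w (kk (va w) (vb w)) : ℝ) - va w (kk (va w) (vb w)) = 0
    · -- parallel lines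
      have hx : x w = 0 := by
        simp only [x]
        rw [hΔ, div_zero]
      have hd0 : dsv (va w) (vb w) ≤ 0 := by
        have := dsv_le_max (va w) (vb w) (kk (va w) (vb w)) (hkk (va w) (vb w))
        rwa [hΔ, abs_zero] at this
      have hKe : K w = 2 * 2 ^ J := by
        simp only [K]
        rw [max_eq_right (by linarith), div_one]
      rw [hx, hKe, sub_zero]
      have h5 : |(c w : ℝ)| / (2 * 2 ^ J) ≤ |(c w : ℝ)| / 2 ^ J := by
        gcongr
        linarith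
      have h6 : Real.log (1 + |(c w : ℝ)| / (2 * 2 ^ J)) ≤
          Real.log (1 + |(c w : ℝ)| / 2 ^ J) := by
        apply Real.log_le_log (by positivity)
        linarith
      linarith
    · -- the coordinate of the maximum
      have hΔ1 := one_le hΔ
      have hΔ0 : 0 < |(vb w (kk (va w) (vb w)) : ℝ) - va w (kk (va w) (vb w))| := by linarith
      have hdm : dsv (va w) (vb w) = |(vb w (kk (va w) (vb w)) : ℝ) - va w (kk (va w) (vb w))| :=
        le_antisymm (dsv_le_max _ _ _ (hkk (va w) (vb w))) (le_dsv _ _ _)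
      have hKe : K w = 2 * (2 ^ J / |(vb w (kk (va w) (vb w)) : ℝ) -
          va w (kk (va w) (vb w))|) := by
        simp only [K]
        rw [hdm, max_eq_left hΔ1]
      -- the floor
      have f1 : (X w (kk (va w) (vb w)) : ℝ) ≤
          pos (2 ^ J) (ua w) (va w) (s w) (kk (va w) (vb w)) +
          (c w : ℝ) / ((2 ^ J : ℕ) : ℝ) * vb w (kk (va w) (vb w)) := Int.floor_le _
      have f2 : pos (2 ^ J) (ua w) (va w) (s w) (kk (va w) (vb w)) +
          (c w : ℝ) / ((2 ^ J : ℕ) : ℝ) * vb w (kk (va w) (vb w)) <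
          (X w (kk (va w) (vb w)) : ℝ) + 1 := Int.lt_floor_add_one _
      have f3 : pos (2 ^ J) (ua w) (va w) (s w) (kk (va w) (vb w)) +
          (c w : ℝ) / ((2 ^ J : ℕ) : ℝ) * vb w (kk (va w) (vb w)) =
          pos (2 ^ J) (ua w) (va w) (T w) (kk (va w) (vb w)) +
          (c w : ℝ) / 2 ^ J * ((vb w (kk (va w) (vb w)) : ℝ) - va w (kk (va w) (vb w))) := by
        simp only [T]
        unfold pos
        rw [hM]
        push_cast
        field_simp
        ring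
      rw [f3] at f1 f2
      have f4 : |(c w : ℝ) / 2 ^ J * ((vb w (kk (va w) (vb w)) : ℝ) - va w (kk (va w) (vb w))) -
          ((X w (kk (va w) (vb w)) : ℝ) -
            pos (2 ^ J) (ua w) (va w) (T w) (kk (va w) (vb w)))| ≤ 1 :=
        abs_le.mpr ⟨by linarith, by linarith⟩
      have f5 : (c w : ℝ) - x w = ((c w : ℝ) / 2 ^ J *
          ((vb w (kk (va w) (vb w)) : ℝ) - va w (kk (va w) (vb w))) -
          ((X w (kk (va w) (vb w)) : ℝ) -
            pos (2 ^ J) (ua w) (va w) (T w) (kk (va w) (vb w)))) *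
          (2 ^ J / ((vb w (kk (va w) (vb w)) : ℝ) - va w (kk (va w) (vb w)))) := by
        simp only [x]
        field_simp
      have f6 : |(c w : ℝ) - x w| ≤ K w := by
        rw [f5, abs_mul, abs_div, abs_of_pos hM0, hKe]
        have h7 : (0 : ℝ) ≤ 2 ^ J / |(vb w (kk (va w) (vb w)) : ℝ) -
          va w (kk (va w) (vb w))| := by positivity
        nlinarith [mul_le_mul_of_nonneg_right f4 h7]
      have f7 : |(c w : ℝ) - x w| / K w ≤ 1 := by
        rw [div_le_one hK0]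
        exact f6
      have f8 : Real.log (1 + |(c w : ℝ) - x w| / K w) ≤ Real.log 2 := by
        apply Real.log_le_log (by positivity)
        linarith
      have := log_two_le_one
      linarith
  have c9 : CH q c (fun w => ((s w + c w, xf (2 ^ J) (ua w) (va w) (s w) (c w) (vb w)), W w)) =
      CH q c (fun w => ((T w, X w), W w)) := rfl
  rw [c9]
  linarith

theorem pal (h1 : CENStmt) (h2 : CGPStmt) (h3 : UFCStmt) (h4 : UFDStmt) : PALStmt := by
  intro d hd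
  obtain ⟨C₁, hC₁, hC⟩ := h1
  obtain ⟨C₂, hC₂, hG⟩ := h2 d
  obtain ⟨-, ⟨C₃, hC₃, hU⟩, -⟩ := h3 d
  obtain ⟨⟨C₄, hC₄, hV⟩, -⟩ := h4 d
  have her : ∀ (J : ℕ) (F : Cf d J) (L sb e : ℝ), F.Ok L sb e → 1 ≤ er J e := by
    intro J F L sb e hF
    have h5 : 0 ≤ Real.log ((J : ℝ) + 2) := Real.log_nonneg (by
      have : (0 : ℝ) ≤ J := Nat.cast_nonneg J
      linarith)
    have := hF.e0
    unfold er
    linarith
  have hsm : ∀ (J : ℕ) (F : Cf d J) (x : F.Ω → ℤ), 0 ≤ F.sml x ∧ 0 ≤ F.big x := by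
    intro J F x
    refine ⟨Ex_nonneg F.hq fun w _ => Real.log_nonneg ?_,
      Ex_nonneg F.hq fun w _ => Real.log_nonneg ?_⟩
    · have : (0 : ℝ) ≤ 2 ^ J / max 1 |(x w : ℝ)| := by positivity
      linarith
    · have : (0 : ℝ) ≤ |(x w : ℝ)| / 2 ^ J := by positivity
      linarith
  constructor
  · refine ⟨C₃ + 2 * C₂ + (C₁ + 3), by linarith, ?_⟩
    intro J F L sb e hF
    have hq := F.hq
    have he := her J F L sb e hF
    have g1 := hG J F L sb e hF
    have g2 := hU J F L sb e hF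
    have s1 := hsm J F F.c
    have s2 := hsm J F F.c₂
    have a1 := CH_le_add hq (fun w => (F.s w, F.c w)) F.O (fun w => (F.v01 w, F.t w, F.Z w))
    have a2 : CH F.q (fun w => (F.s w, F.c w)) (fun w => (F.O w, (F.v01 w, F.t w, F.Z w))) ≤
        CH F.q F.c (fun w => (F.O w, (F.v01 w, F.t w, F.Z w))) := by
      refine CH_mono_left hq ?_
      intro w w' _ _ e
      simp only [Prod.mk.injEq, Cf.O] at e ⊢
      obtain ⟨e1, ⟨e2, _⟩, _⟩ := e
      exact ⟨by omega, e1⟩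
    have a3 := gen hC hd (J := J) hq F.h1 (fun w => (F.v01 w, F.t w, F.Z w)) F.v₀ F.v₁ F.u₀
      F.s F.c
      (fun w w' _ _ e => by simp only [Prod.mk.injEq, Cf.v01] at e; exact e.1.1)
      (fun w w' _ _ e => by simp only [Prod.mk.injEq, Cf.v01] at e; exact e.1.2)
      (fun w w' a b e => by
        simp only [Prod.mk.injEq, Cf.v01] at e
        exact F.hu₀ w w' a b (by simp only [e.1.1, e.2.2]))
      F.hv₀ F.hv₁
    have a4 : CH F.q F.c (fun w => (F.O w, (F.v01 w, F.t w, F.Z w))) ≤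
      Ex F.q (fun w => lvv (2 ^ J) (F.v₀ w) (F.v₁ w)) +
        2 * Ex F.q (fun w => Real.log (1 + |(F.c w : ℝ)| / 2 ^ J)) + (C₁ + 3) := a3
    have a5 : Ex F.q (fun w => Real.log (1 + |(F.c w : ℝ)| / 2 ^ J)) ≤ C₂ * er J e := by
      have : F.big F.c ≤ C₂ * er J e := by linarith [s1.1, s2.1, s2.2]
      exact this
    have a6 : F.y01 = Ex F.q (fun w => lvv (2 ^ J) (F.v₀ w) (F.v₁ w)) := rfl
    have a7 : (C₁ + 3) * 1 ≤ (C₁ + 3) * er J e :=
      mul_le_mul_of_nonneg_left he (by linarith)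
    show 2 * lm J - F.y01 - CH F.q F.O (fun w => (F.v01 w, F.t w, F.Z w)) ≤ _
    rw [a6]
    linarith
  · refine ⟨C₄ + 2 * C₂ + (C₁ + 3), by linarith, ?_⟩
    intro J F L sb e hF
    have hq := F.hq
    have he := her J F L sb e hF
    have g1 := hG J F L sb e hF
    have g2 := hV J F L sb e hF
    have s1 := hsm J F F.c
    have s2 := hsm J F F.c₂
    have a0 : CH F.q F.Y (fun w => (F.v3 w, (F.t w, F.s w, F.ta w), F.Z w)) ≤
        CH F.q F.Y (fun w => (F.v12 w, (F.s w, F.ta w), F.Z w)) := by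
      refine CH_mono_cond hq ?_
      intro w w' _ _ e
      simp only [Prod.mk.injEq, Cf.v12, Cf.v3] at e ⊢
      tauto
    have a1 := CH_le_add hq (fun w => (F.tr w, F.c₂ w)) F.Y
      (fun w => (F.v3 w, (F.t w, F.s w, F.ta w), F.Z w))
    have a2 : CH F.q (fun w => (F.tr w, F.c₂ w))
        (fun w => (F.Y w, (F.v3 w, (F.t w, F.s w, F.ta w), F.Z w))) ≤
        CH F.q F.c₂ (fun w => (F.Y w, (F.v3 w, (F.t w, F.s w, F.ta w), F.Z w))) := by
      refine CH_mono_left hq ?_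
      intro w w' _ _ e
      simp only [Prod.mk.injEq, Cf.Y] at e ⊢
      obtain ⟨e1, ⟨e2, _⟩, _⟩ := e
      exact ⟨by omega, e1⟩
    have a3 := gen hC hd (J := J) hq F.h1 (fun w => (F.v3 w, (F.t w, F.s w, F.ta w), F.Z w))
      F.v₂ F.v₁ F.u₂ F.tr F.c₂
      (fun w w' _ _ e => by simp only [Prod.mk.injEq, Cf.v3] at e; exact e.1.2.2)
      (fun w w' _ _ e => by simp only [Prod.mk.injEq, Cf.v3] at e; exact e.1.2.1)
      (fun w w' a b e => by
        simp only [Prod.mk.injEq, Cf.v3] at e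
        exact F.hu₂ w w' a b (by simp only [e.1.2.2, e.2.2]))
      F.hv₂ F.hv₁
    have a4 : CH F.q F.c₂ (fun w => (F.Y w, (F.v3 w, (F.t w, F.s w, F.ta w), F.Z w))) ≤
      Ex F.q (fun w => lvv (2 ^ J) (F.v₂ w) (F.v₁ w)) +
        2 * Ex F.q (fun w => Real.log (1 + |(F.c₂ w : ℝ)| / 2 ^ J)) + (C₁ + 3) := a3
    have a5 : Ex F.q (fun w => Real.log (1 + |(F.c₂ w : ℝ)| / 2 ^ J)) ≤ C₂ * er J e := by
      have : F.big F.c₂ ≤ C₂ * er J e := by linarith [s1.1, s1.2, s2.1]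
      exact this
    have a6 : F.y12 = Ex F.q (fun w => lvv (2 ^ J) (F.v₂ w) (F.v₁ w)) := by
      unfold Cf.y12
      congr 1
      funext w
      exact lvv_symm _ _ _
    have a7 : (C₁ + 3) * 1 ≤ (C₁ + 3) * er J e :=
      mul_le_mul_of_nonneg_left he (by linarith)
    show 2 * lm J - F.y12 - CH F.q F.Y (fun w => (F.v12 w, (F.s w, F.ta w), F.Z w)) ≤ _
    rw [a6]
    linarith

end Pool.Agent.H36.KTH.PAL
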